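import Pool.Agent.P8H23.SC.Defs3

set_option autoImplicit false

/-!
# Package MOR: Lempel–Ziv parses of morphic sets
-/

namespace Pool.Agent.P8H87.SC3

open Finset Pool.Agent.P8H23.SC

variable {α : Type} {σ : α → List α} {w : ℕ → α}

lemma len_zero : len σ w 0 = 0 := by
  unfold len
  rw [Finset.sum_range_zero]

lemma len_succ (i : ℕ) : len σ w (i + 1) = len σ w i + (σ (w i)).length := by
  unfold len
  rw [Finset.sum_range_succ]

lemma len_mono : Monotone (len σ w) := monotone_nat_of_le_succ fun i => by
  rw [len_succ]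
  omega

lemma len_inj {i i' j j' : ℕ} (hj : j < (σ (w i)).length) (hj' : j' < (σ (w i')).length)
    (h : len σ w i + j = len σ w i' + j') : i = i' := by
  rcases lt_trichotomy i i' with h1 | h1 | h1
  · have h2 := len_mono (σ := σ) (w := w) (Nat.succ_le_of_lt h1)
    rw [Nat.succ_eq_add_one, len_succ] at h2
    omega
  · exact h1
  · have h2 := len_mono (σ := σ) (w := w) (Nat.succ_le_of_lt h1)
    rw [Nat.succ_eq_add_one, len_succ] at h2
    omega

/-- equal words have equal images -/
lemma img_one (hw : IsFixed σ w) (a a' : ℕ) : ∀ m : ℕ, (∀ j < m, w (a + j) = w (a' + j)) →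
    ∃ l, len σ w (a + m) = len σ w a + l ∧ len σ w (a' + m) = len σ w a' + l ∧
      ∀ j < l, w (len σ w a + j) = w (len σ w a' + j) := by
  intro m
  induction m with
  | zero => exact fun _ => ⟨0, rfl, rfl, fun j hj => by omega⟩
  | succ m ih =>
    intro h
    obtain ⟨l, h1, h2, h3⟩ := ih fun j hj => h j (by omega)
    have h4 := h m (by omega)
    refine ⟨l + (σ (w (a + m))).length, ?_, ?_, fun j hj => ?_⟩
    · rw [← add_assoc a, len_succ, h1, add_assoc]
    · rw [← add_assoc a', len_succ, h2, h4, add_assoc]
    · rcases lt_or_ge j l with h5 | h5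
      · exact h3 j h5
      · obtain ⟨i, rfl⟩ : ∃ i, j = l + i := ⟨j - l, by omega⟩
        have h6 : i < (σ (w (a + m))).length := by omega
        have h7 : i < (σ (w (a' + m))).length := by
          rw [← h4]
          exact h6
        have h8 := hw (a + m) i h6
        have h9 := hw (a' + m) i h7
        rw [h1] at h8
        rw [h2] at h9
        rw [← add_assoc, ← add_assoc, h8, h9]
        congr 1
        rw [h4]

lemma img (hw : IsFixed σ w) (k : ℕ) (a a' m : ℕ) (h : ∀ j < m, w (a + j) = w (a' + j)) :
    ∃ l, (len σ w)^[k] (a + m) = (len σ w)^[k] a + l ∧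
      (len σ w)^[k] (a' + m) = (len σ w)^[k] a' + l ∧
      ∀ j < l, w ((len σ w)^[k] a + j) = w ((len σ w)^[k] a' + j) := by
  induction k with
  | zero => exact ⟨m, rfl, rfl, h⟩
  | succ k ih =>
    obtain ⟨l, h1, h2, h3⟩ := ih
    obtain ⟨l', h4, h5, h6⟩ := img_one hw _ _ l h3
    refine ⟨l', ?_, ?_, ?_⟩
    · rw [Function.iterate_succ_apply', Function.iterate_succ_apply', h1, h4]
    · rw [Function.iterate_succ_apply', Function.iterate_succ_apply', h2, h5]
    · simp only [Function.iterate_succ_apply']
      exact h6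

/-- the letter at `i` occurs for the first time -/
def New (w : ℕ → α) (i : ℕ) : Prop := ∀ i' < i, w i' ≠ w i

open Classical in
/-- the costs -/
noncomputable def cst (σ : α → List α) (w : ℕ → α) : ℕ → ℕ → ℕ
  | 0, _ => 1
  | k + 1, i => if New w i then
      ∑ j ∈ Finset.range (σ (w i)).length, cst σ w k (len σ w i + j) else 1

lemma cst_old {k i : ℕ} (h : ¬ New w i) : cst σ w k i = 1 := by
  cases k with
  | zero => rfl
  | succ k =>
    unfold cst
    rw [if_neg h]

lemma cst_new {k i : ℕ} (h : New w i) : cst σ w (k + 1) i =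
    ∑ j ∈ Finset.range (σ (w i)).length, cst σ w k (len σ w i + j) := by
  conv_lhs => unfold cst
  rw [if_pos h]

lemma parse_one (hw : IsFixed σ w) (B : Set α) (k : ℕ) : ∀ (i z : ℕ),
    Parses {n | w n ∈ B} z ((len σ w)^[k] i) →
    ∃ z' ≤ z + cst σ w k i, Parses {n | w n ∈ B} z' ((len σ w)^[k] (i + 1)) := by
  induction k with
  | zero =>
    intro i z h
    exact ⟨z + 1, le_rfl, Parses.letter h⟩
  | succ k ih =>
    intro i z h
    by_cases hi : New w i
    · have key : ∀ m : ℕ, ∃ z' ≤ z + ∑ j ∈ Finset.range m, cst σ w k (len σ w i + j),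
          Parses {n | w n ∈ B} z' ((len σ w)^[k] (len σ w i + m)) := by
        intro m
        induction m with
        | zero =>
          rw [Function.iterate_succ_apply] at h
          exact ⟨z, by omega, h⟩
        | succ m ihm =>
          obtain ⟨z', h1, h2⟩ := ihm
          obtain ⟨z2, h3, h4⟩ := ih _ _ h2
          refine ⟨z2, ?_, h4⟩
          rw [Finset.sum_range_succ]
          omega
      obtain ⟨z', h1, h2⟩ := key (σ (w i)).length
      refine ⟨z', ?_, ?_⟩
      · rw [cst_new hi]
        exact h1
      · rw [Function.iterate_succ_apply, len_succ]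
        exact h2
    · rw [cst_old hi]
      unfold New at hi
      push Not at hi
      obtain ⟨i', hi', he⟩ := hi
      obtain ⟨l, h1, h2, h3⟩ := img hw (k + 1) i' i 1 (fun j hj => by
        have : j = 0 := by omega
        rw [this]
        exact he)
      rcases Nat.eq_zero_or_pos l with h4 | h4
      · rw [h4, add_zero] at h2
        rw [h2]
        exact ⟨z, by omega, h⟩
      · refine ⟨z + 1, le_rfl, ?_⟩
        rw [h2]
        refine Parses.copy ((len σ w)^[k + 1] i') l h ?_ fun j hj => ?_
        · have h5 := (len_mono (σ := σ) (w := w)).iterate (k + 1) (Nat.succ_le_of_lt hi')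
          rw [Nat.succ_eq_add_one, h1] at h5
          omega
        · change w _ ∈ B ↔ w _ ∈ B
          rw [h3 j hj]

lemma parses_le {A : Set ℕ} {z N' : ℕ} (h : Parses A z N') :
    ∀ N ≤ N', ∃ z' ≤ z, Parses A z' N := by
  induction h with
  | nil =>
    intro N hN
    have : N = 0 := by omega
    subst this
    exact ⟨0, le_rfl, Parses.nil⟩
  | @letter z N₀ h0 ih =>
    intro N hN
    rcases Nat.lt_or_ge N₀ N with h1 | h1
    · have : N = N₀ + 1 := by omega
      subst this
      exact ⟨z + 1, le_rfl, Parses.letter h0⟩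
    · obtain ⟨z', h2, h3⟩ := ih N h1
      exact ⟨z', by omega, h3⟩
  | @copy z N₀ q l h0 hq hc ih =>
    intro N hN
    rcases Nat.lt_or_ge N₀ N with h1 | h1
    · obtain ⟨l', rfl⟩ : ∃ l', N = N₀ + l' := ⟨N - N₀, by omega⟩
      exact ⟨z + 1, le_rfl, Parses.copy q l' h0 hq fun j hj => hc j (by omega)⟩
    · obtain ⟨z', h2, h3⟩ := ih N h1
      exact ⟨z', by omega, h3⟩

lemma new_inj (w : ℕ → α) : Set.InjOn w {i | New w i} := by
  intro i hi i' hi' he
  rcases lt_trichotomy i i' with h1 | h1 | h1
  · exact absurd he (hi' i h1)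
  · exact h1
  · exact absurd he.symm (hi i' h1)

/-- the package MOR -/
theorem mor : S_MOR := by
  classical
  intro α _ σ w B M hM hσ hw k N hN
  have hfin : {i | New w i}.Finite :=
    Set.Finite.of_finite_image (Set.toFinite _) (new_inj w)
  set Nf : Finset ℕ := hfin.toFinset with hNf
  have hmem : ∀ i, i ∈ Nf ↔ New w i := fun i => by
    rw [hNf, Set.Finite.mem_toFinset]
    rfl
  have hcard : Nf.card ≤ Fintype.card α :=
    Finset.card_le_card_of_injOn w (fun _ _ => Finset.mem_univ _) (by
      rw [hNf, Set.Finite.coe_toFinset]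
      exact new_inj w)
  have hE : ∀ k : ℕ, ∑ i ∈ Nf, cst σ w k i ≤ (k + 1) * (Fintype.card α * M) := by
    intro k
    induction k with
    | zero =>
      have h1 : ∑ i ∈ Nf, cst σ w 0 i = Nf.card := by
        rw [Finset.card_eq_sum_ones]
        rfl
      rw [h1, zero_add, one_mul]
      exact hcard.trans (Nat.le_mul_of_pos_right _ hM)
    | succ k ih =>
      have h1 : ∑ i ∈ Nf, cst σ w (k + 1) i =
          ∑ x ∈ Nf.sigma (fun i => Finset.range (σ (w i)).length),
            cst σ w k (len σ w x.1 + x.2) := by
        rw [Finset.sum_sigma]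
        exact Finset.sum_congr rfl fun i hi => cst_new ((hmem i).1 hi)
      have h2 : ∑ x ∈ Nf.sigma (fun i => Finset.range (σ (w i)).length),
            cst σ w k (len σ w x.1 + x.2) ≤
          ∑ x ∈ Nf.sigma (fun i => Finset.range (σ (w i)).length),
            (1 + if New w (len σ w x.1 + x.2) then cst σ w k (len σ w x.1 + x.2) else 0) := by
        refine Finset.sum_le_sum fun x _ => ?_
        split_ifs with h
        · omega
        · rw [cst_old h]
      have h3 : (Nf.sigma (fun i => Finset.range (σ (w i)).length)).card ≤ Fintype.card α * M := by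
        rw [Finset.card_sigma]
        calc ∑ i ∈ Nf, (Finset.range (σ (w i)).length).card ≤ ∑ _i ∈ Nf, M := by
              refine Finset.sum_le_sum fun i _ => ?_
              rw [Finset.card_range]
              exact hσ _
          _ = Nf.card * M := by rw [Finset.sum_const, smul_eq_mul]
          _ ≤ Fintype.card α * M := Nat.mul_le_mul_right _ hcard
      have h4 : ∑ x ∈ Nf.sigma (fun i => Finset.range (σ (w i)).length),
            (if New w (len σ w x.1 + x.2) then cst σ w k (len σ w x.1 + x.2) else 0) ≤
          ∑ i ∈ Nf, cst σ w k i := by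
        have hinj : Set.InjOn (fun x : (_ : ℕ) × ℕ => len σ w x.1 + x.2)
            (Nf.sigma (fun i => Finset.range (σ (w i)).length) : Finset ((_ : ℕ) × ℕ)) := by
          rintro ⟨i, j⟩ hx ⟨i', j'⟩ hx' he
          rw [Finset.mem_coe, Finset.mem_sigma] at hx hx'
          have e1 := Finset.mem_range.1 hx.2
          have e2 := Finset.mem_range.1 hx'.2
          simp only at e1 e2 he
          have e3 := len_inj e1 e2 he
          subst e3
          have e4 : j = j' := by omega
          rw [e4]
        have h5 := Finset.sum_image (f := fun y => if New w y then cst σ w k y else 0) hinj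
        rw [← h5, ← Finset.sum_filter]
        refine Finset.sum_le_sum_of_subset fun y hy => ?_
        rw [Finset.mem_filter] at hy
        exact (hmem y).2 hy.2
      rw [Finset.sum_add_distrib, Finset.sum_const, smul_eq_mul, mul_one] at h2
      calc ∑ i ∈ Nf, cst σ w (k + 1) i ≤ Fintype.card α * M + (k + 1) * (Fintype.card α * M) := by
            omega
        _ = (k + 1 + 1) * (Fintype.card α * M) := by ring
  have h0 : (len σ w)^[k] 0 = 0 := Function.iterate_fixed len_zero k
  obtain ⟨z, h1, h2⟩ := parse_one hw B k 0 0 (by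
    rw [h0]
    exact Parses.nil)
  rw [zero_add] at h1 h2
  obtain ⟨z', h3, h4⟩ := parses_le h2 N hN
  refine ⟨z', ?_, h4⟩
  have h5 : (0 : ℕ) ∈ Nf := (hmem 0).2 fun i hi => by omega
  have h6 := Finset.single_le_sum (f := fun i => cst σ w k i) (fun i _ => Nat.zero_le _) h5
  exact h3.trans (h1.trans (h6.trans (hE k)))

end Pool.Agent.P8H87.SC3
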