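import Pool.Agent.P8H23.SC.Defs

set_option autoImplicit false

/-!
# Package SHARP: product sets of Erdős–Turán Sidon sets
-/

namespace Pool.Agent.P8H87.SC

open Finset Pool.Agent.P8H23.SC

/-- the digits -/
def SS (p : ℕ) : Finset ℕ := (range p).image fun k => 2 * (2 * p * k + k ^ 2 % p)

lemma dm {q a a' r r' : ℕ} (hr : r < q) (hr' : r' < q) (h : q * a + r = q * a' + r') :
    a = a' ∧ r = r' := by
  have hq : 0 < q := by omega
  have h1 := congrArg (fun x => x / q) h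
  simp only [Nat.mul_add_div hq, Nat.div_eq_of_lt hr, Nat.div_eq_of_lt hr', add_zero] at h1
  subst h1
  exact ⟨rfl, by omega⟩

lemma SS_lt {p s : ℕ} (hs : s ∈ SS p) : 2 * s < 8 * p ^ 2 := by
  unfold SS at hs
  rw [mem_image] at hs
  obtain ⟨k, hk, rfl⟩ := hs
  rw [mem_range] at hk
  have h1 : k ^ 2 % p < p := Nat.mod_lt _ (by omega)
  have h2 : 2 * p * (k + 1) ≤ 2 * p * p := Nat.mul_le_mul_left _ (by omega)
  nlinarith

lemma SS_even {p s : ℕ} (hs : s ∈ SS p) : s % 2 = 0 := by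
  unfold SS at hs
  rw [mem_image] at hs
  obtain ⟨k, hk, rfl⟩ := hs
  omega

lemma SS_card (p : ℕ) : (SS p).card = p := by
  unfold SS
  rw [card_image_of_injOn, card_range]
  intro k hk l hl h
  rw [mem_coe, mem_range] at hk hl
  have h1 : k ^ 2 % p < p := Nat.mod_lt _ (by omega)
  have h2 : l ^ 2 % p < p := Nat.mod_lt _ (by omega)
  have h3 : 2 * (2 * p * k + k ^ 2 % p) = 2 * (2 * p * l + l ^ 2 % p) := h
  exact (dm (q := 2 * p) (by omega) (by omega) (by omega : 2 * p * k + k ^ 2 % p =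
    2 * p * l + l ^ 2 % p)).1

lemma sidon {p k l k' l' : ℕ} (hp : p.Prime) (hk : k < p) (hl : l < p) (hk' : k' < p)
    (hl' : l' < p) (h : 2 * (2 * p * k + k ^ 2 % p) + 2 * (2 * p * l + l ^ 2 % p) =
      2 * (2 * p * k' + k' ^ 2 % p) + 2 * (2 * p * l' + l' ^ 2 % p)) :
    (k = k' ∧ l = l') ∨ (k = l' ∧ l = k') := by
  have hp0 := hp.pos
  have h1 : k ^ 2 % p < p := Nat.mod_lt _ hp0
  have h2 : l ^ 2 % p < p := Nat.mod_lt _ hp0
  have h3 : k' ^ 2 % p < p := Nat.mod_lt _ hp0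
  have h4 : l' ^ 2 % p < p := Nat.mod_lt _ hp0
  obtain ⟨h5, h6⟩ := dm (q := 2 * p) (a := k + l) (a' := k' + l') (r := k ^ 2 % p + l ^ 2 % p)
    (r' := k' ^ 2 % p + l' ^ 2 % p) (by omega) (by omega) (by nlinarith)
  have key : k = k' ∨ k = l' := by
    rcases eq_or_ne p 2 with rfl | hp2
    · omega
    · have e1 := Nat.div_add_mod (k ^ 2) p
      have e2 := Nat.div_add_mod (l ^ 2) p
      have e3 := Nat.div_add_mod (k' ^ 2) p
      have e4 := Nat.div_add_mod (l' ^ 2) p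
      have h7 : (p : ℤ) ∣ 2 * ((k - k') * (k - l')) := by
        refine ⟨(k ^ 2 / p : ℕ) + (l ^ 2 / p : ℕ) - (k' ^ 2 / p : ℕ) - (l' ^ 2 / p : ℕ), ?_⟩
        zify at e1 e2 e3 e4 h5 h6
        have e5 : (l' : ℤ) = k + l - k' := by linarith
        have e6 : (k : ℤ) ^ 2 + l ^ 2 - k' ^ 2 - l' ^ 2 = 2 * ((k - k') * (k - l')) := by
          rw [e5]
          ring
        rw [← e6]
        push_cast
        linear_combination -e1 - e2 + e3 + e4 + h6
      have hpi : Prime (p : ℤ) := Nat.prime_iff_prime_int.1 hp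
      rcases hpi.dvd_or_dvd h7 with h8 | h8
      · exfalso
        have h9 : p ∣ 2 := by exact_mod_cast h8
        exact hp2 ((Nat.prime_dvd_prime_iff_eq hp Nat.prime_two).1 h9)
      · have red : ∀ a b : ℕ, a < p → b < p → (p : ℤ) ∣ (a : ℤ) - b → a = b := by
          intro a b ha hb hab
          have h9 := Int.eq_zero_of_abs_lt_dvd hab (by rw [abs_lt]; constructor <;> omega)
          omega
        rcases hpi.dvd_or_dvd h8 with h9 | h9
        · exact Or.inl (red _ _ hk hk' h9)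
        · exact Or.inr (red _ _ hk hl' h9)
  rcases key with h7 | h7
  · left
    exact ⟨h7, by omega⟩
  · right
    exact ⟨h7, by omega⟩

lemma pairs_le {p : ℕ} (hp : p.Prime) (m : ℕ) :
    ((SS p ×ˢ SS p).filter fun x => x.1 + x.2 = m).card ≤ 2 := by
  rcases ((SS p ×ˢ SS p).filter fun x => x.1 + x.2 = m).eq_empty_or_nonempty with h | ⟨x₀, h₀⟩
  · rw [h, card_empty]
    omega
  · have h1 : ((SS p ×ˢ SS p).filter fun x => x.1 + x.2 = m) ⊆ {x₀, (x₀.2, x₀.1)} := by
      intro x hx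
      rw [mem_filter, mem_product] at hx h₀
      obtain ⟨⟨hx1, hx2⟩, hx3⟩ := hx
      obtain ⟨⟨hy1, hy2⟩, hy3⟩ := h₀
      unfold SS at hx1 hx2 hy1 hy2
      rw [mem_image] at hx1 hx2 hy1 hy2
      obtain ⟨k, hk, e1⟩ := hx1
      obtain ⟨l, hl, e2⟩ := hx2
      obtain ⟨k', hk', e3⟩ := hy1
      obtain ⟨l', hl', e4⟩ := hy2
      rw [mem_range] at hk hl hk' hl'
      have h2 := sidon hp hk hl hk' hl' (by rw [e1, e2, e3, e4, hx3, hy3])
      rw [mem_insert, mem_singleton]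
      rcases h2 with ⟨h3, h4⟩ | ⟨h3, h4⟩
      · left
        subst h3 h4
        exact Prod.ext (e1.symm.trans e3) (e2.symm.trans e4)
      · right
        subst h3 h4
        exact Prod.ext (e1.symm.trans e4) (e2.symm.trans e3)
    exact (card_le_card h1).trans card_le_two

/-- the numbers with `j` digits in `S` -/
def AF (p : ℕ) : ℕ → Finset ℕ
  | 0 => {0}
  | j + 1 => (SS p ×ˢ AF p j).image fun x => x.1 + 8 * p ^ 2 * x.2

variable {p : ℕ}

lemma mem_zero {x : ℕ} : x ∈ AF p 0 ↔ x = 0 := by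
  unfold AF
  rw [mem_singleton]

lemma mem_succ (hp : 0 < p) {j x : ℕ} :
    x ∈ AF p (j + 1) ↔ x % (8 * p ^ 2) ∈ SS p ∧ x / (8 * p ^ 2) ∈ AF p j := by
  have hM : 0 < 8 * p ^ 2 := by positivity
  conv_lhs => unfold AF
  rw [mem_image]
  constructor
  · rintro ⟨⟨s, u⟩, h, rfl⟩
    rw [mem_product] at h
    have h1 := SS_lt h.1
    have h2 : (s + 8 * p ^ 2 * u) % (8 * p ^ 2) = s := by
      rw [Nat.add_mul_mod_self_left, Nat.mod_eq_of_lt (by omega)]
    have h3 : (s + 8 * p ^ 2 * u) / (8 * p ^ 2) = u := by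
      rw [Nat.add_mul_div_left _ _ hM, Nat.div_eq_of_lt (by omega), zero_add]
    simp only
    rw [h2, h3]
    exact h
  · rintro ⟨h1, h2⟩
    exact ⟨(x % (8 * p ^ 2), x / (8 * p ^ 2)), mem_product.2 ⟨h1, h2⟩, Nat.mod_add_div _ _⟩

lemma AF_lt (hp : 0 < p) {j x : ℕ} (hx : x ∈ AF p j) : x < (8 * p ^ 2) ^ j := by
  have hM : 0 < 8 * p ^ 2 := by positivity
  induction j generalizing x with
  | zero =>
    rw [mem_zero] at hx
    subst hx
    simp
  | succ j ih =>
    rw [mem_succ hp] at hx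
    have h1 := ih hx.2
    rw [Nat.div_lt_iff_lt_mul hM] at h1
    rwa [pow_succ]

lemma AF_card (hp : 0 < p) (j : ℕ) : (AF p j).card = p ^ j := by
  induction j with
  | zero => rfl
  | succ j ih =>
    unfold AF
    rw [card_image_of_injOn, card_product, SS_card, ih, pow_succ, mul_comm]
    rintro ⟨s, u⟩ h ⟨s', u'⟩ h' e
    rw [mem_coe, mem_product] at h h'
    have h1 := SS_lt h.1
    have h2 := SS_lt h'.1
    simp only at e h1 h2
    obtain ⟨e1, e2⟩ := dm (q := 8 * p ^ 2) (a := u) (a' := u') (r := s) (r' := s') (by omega)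
      (by omega) (by omega)
    rw [e1, e2]

lemma AF_split (hp : 0 < p) (i k : ℕ) : ∀ x, x ∈ AF p (i + k) ↔
    x % (8 * p ^ 2) ^ i ∈ AF p i ∧ x / (8 * p ^ 2) ^ i ∈ AF p k := by
  induction i with
  | zero =>
    intro x
    rw [zero_add, pow_zero, Nat.mod_one, Nat.div_one, mem_zero]
    simp
  | succ i ih =>
    intro x
    rw [show i + 1 + k = (i + k) + 1 by ring, mem_succ hp, mem_succ hp, ih,
      pow_succ' (8 * p ^ 2) i, Nat.mod_mul_right_mod, Nat.mod_mul_right_div_self, Nat.div_div_eq_div_mul, and_assoc]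

lemma AF_pairs (hp : p.Prime) (j : ℕ) : ∀ n,
    ((AF p j ×ˢ AF p j).filter fun x => x.1 + x.2 = n).card ≤ 2 ^ j := by
  have hM : 0 < 8 * p ^ 2 := by have := hp.pos; positivity
  induction j with
  | zero =>
    intro n
    refine (card_filter_le _ _).trans ?_
    unfold AF
    simp
  | succ j ih =>
    intro n
    have h1 : ((AF p (j + 1) ×ˢ AF p (j + 1)).filter fun x => x.1 + x.2 = n).card ≤
        (((SS p ×ˢ SS p).filter fun x => x.1 + x.2 = n % (8 * p ^ 2)) ×ˢ
          ((AF p j ×ˢ AF p j).filter fun x => x.1 + x.2 = n / (8 * p ^ 2))).card := by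
      refine card_le_card_of_injOn (fun x => ((x.1 % (8 * p ^ 2), x.2 % (8 * p ^ 2)),
        (x.1 / (8 * p ^ 2), x.2 / (8 * p ^ 2)))) ?_ ?_
      · rintro ⟨a, b⟩ hx
        rw [mem_coe, mem_filter, mem_product, mem_succ hp.pos, mem_succ hp.pos] at hx
        obtain ⟨⟨⟨h1, h2⟩, ⟨h3, h4⟩⟩, h5⟩ := hx
        simp only at h1 h2 h3 h4 h5
        have l1 := SS_lt h1
        have l3 := SS_lt h3
        have d1 := Nat.mod_add_div a (8 * p ^ 2)
        have d2 := Nat.mod_add_div b (8 * p ^ 2)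
        have d3 := Nat.mod_add_div n (8 * p ^ 2)
        obtain ⟨e1, e2⟩ := dm (q := 8 * p ^ 2) (a := a / (8 * p ^ 2) + b / (8 * p ^ 2))
          (a' := n / (8 * p ^ 2)) (r := a % (8 * p ^ 2) + b % (8 * p ^ 2))
          (r' := n % (8 * p ^ 2)) (by omega) (Nat.mod_lt _ hM) (by rw [mul_add]; omega)
        rw [mem_coe, mem_product, mem_filter, mem_filter, mem_product, mem_product]
        exact ⟨⟨⟨h1, h3⟩, e2⟩, ⟨⟨h2, h4⟩, e1⟩⟩
      · rintro ⟨a, b⟩ - ⟨a', b'⟩ - e
        simp only [Prod.mk.injEq] at e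
        have d1 := Nat.mod_add_div a (8 * p ^ 2)
        have d2 := Nat.mod_add_div b (8 * p ^ 2)
        have d3 := Nat.mod_add_div a' (8 * p ^ 2)
        have d4 := Nat.mod_add_div b' (8 * p ^ 2)
        rw [e.1.1, e.2.1] at d1
        rw [e.1.2, e.2.2] at d2
        rw [← d1, d3, ← d2, d4]
    refine h1.trans ?_
    rw [card_product, pow_succ' 2 j]
    exact Nat.mul_le_mul (pairs_le hp _) (ih _)

lemma AF_even (hp : 0 < p) {k c : ℕ} (h : c ∈ AF p k) : c % 2 = 0 := by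
  cases k with
  | zero =>
    rw [mem_zero] at h
    omega
  | succ k =>
    rw [mem_succ hp] at h
    have h1 := SS_even h.1
    have h2 := Nat.mod_add_div c (8 * p ^ 2)
    have h3 : 8 * p ^ 2 * (c / (8 * p ^ 2)) = 2 * (4 * p ^ 2 * (c / (8 * p ^ 2))) := by ring
    omega

/-- the block with a given shift -/
def GG (p i L σ : ℕ) : Set (Fin L) := {k | ∃ y ∈ AF p (i + 1), y + L = σ + k}

lemma block_eq (hp : 0 < p) {D i L s : ℕ} (hiD : i < D) (hL : L < (8 * p ^ 2) ^ (i + 1))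
    {k₀ : ℕ} (hk₀ : k₀ < L) (hs : s + k₀ ∈ AF p D) :
    ∃ e ∈ SS p, ∃ j < (8 * p ^ 2) ^ i + L,
      {k : Fin L | s + (k : ℕ) ∈ AF p D} = GG p i L ((8 * p ^ 2) ^ i * e + j) := by
  obtain ⟨k', rfl⟩ : ∃ k', D = (i + 1) + k' := ⟨D - (i + 1), by omega⟩
  have hM : 0 < 8 * p ^ 2 := by positivity
  set M := 8 * p ^ 2 with hMdef
  set W := M ^ (i + 1) with hW
  have hW0 : 0 < W := by positivity
  set c := (s + k₀) / W with hc
  obtain ⟨h1, h2⟩ := (AF_split hp (i + 1) k' _).1 hs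
  rw [← hMdef, ← hW] at h1 h2
  rw [← hc] at h2
  set y₀ := (s + k₀) % W with hy₀
  have hx0 : y₀ + W * c = s + k₀ := Nat.mod_add_div _ _
  obtain ⟨h3, h4⟩ := (AF_split hp i 1 _).1 h1
  rw [← hMdef] at h3 h4
  have h5 := AF_lt hp h3
  rw [← hMdef] at h5
  set e := y₀ / M ^ i with he
  have he1 : e ∈ SS p := by
    rw [mem_succ hp, mem_zero, Nat.div_eq_zero_iff_lt hM, ← hMdef] at h4
    rw [← Nat.mod_eq_of_lt h4.2]
    exact h4.1
  have h6 : y₀ % M ^ i + M ^ i * e = y₀ := Nat.mod_add_div _ _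
  have hσ : M ^ i * e + (y₀ % M ^ i + (L - k₀)) + W * c = s + L := by omega
  refine ⟨e, he1, y₀ % M ^ i + (L - k₀), by omega, ?_⟩
  ext k
  have hk := k.2
  change s + (k : ℕ) ∈ AF p (i + 1 + k') ↔
    ∃ y ∈ AF p (i + 1), y + L = M ^ i * e + (y₀ % M ^ i + (L - k₀)) + k
  constructor
  · intro h
    obtain ⟨h7, h8⟩ := (AF_split hp (i + 1) k' _).1 h
    rw [← hMdef, ← hW] at h7 h8
    have h9 : (s + (k : ℕ)) / W = c := by
      have p1 := AF_even hp h2
      have p2 := AF_even hp h8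
      have q1 : (s + (k : ℕ)) / W ≤ c + 1 := by
        rw [← Nat.lt_succ_iff, Nat.div_lt_iff_lt_mul hW0]
        have : (c + 1 + 1) * W = W * c + W + W := by ring
        have h10 : y₀ < W := Nat.mod_lt _ hW0
        change s + (k : ℕ) < (c + 1 + 1) * W
        omega
      have q2 : c ≤ (s + (k : ℕ)) / W + 1 := by
        rw [hc, ← Nat.lt_succ_iff, Nat.div_lt_iff_lt_mul hW0]
        have : ((s + (k : ℕ)) / W + 1 + 1) * W = W * ((s + (k : ℕ)) / W) + W + W := by ring
        have h10 := Nat.mod_add_div (s + (k : ℕ)) W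
        have h11 : (s + (k : ℕ)) % W < W := Nat.mod_lt _ hW0
        change s + k₀ < ((s + (k : ℕ)) / W + 1 + 1) * W
        omega
      omega
    refine ⟨_, h7, ?_⟩
    have h10 := Nat.mod_add_div (s + (k : ℕ)) W
    rw [h9] at h10
    omega
  · rintro ⟨y, hy, hyL⟩
    have h7 := AF_lt hp hy
    rw [← hMdef, ← hW] at h7
    have h8 : s + (k : ℕ) = y + W * c := by omega
    rw [h8]
    refine (AF_split hp (i + 1) k' _).2 ?_
    rw [← hMdef, ← hW, Nat.add_mul_mod_self_left, Nat.mod_eq_of_lt h7,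
      Nat.add_mul_div_left _ _ hW0, Nat.div_eq_of_lt h7, zero_add]
    exact ⟨hy, h2⟩

/-- the package SHARP -/
theorem sharp : S_SHARP := by
  classical
  intro D p hp
  have hp0 := hp.pos
  have hM : 0 < 8 * p ^ 2 := by positivity
  refine ⟨(AF p D : Set ℕ), fun n => ?_, ?_, fun L hL1 hL => ?_⟩
  · have h1 : {x : ℕ × ℕ | x.1 ∈ (AF p D : Set ℕ) ∧ x.2 ∈ (AF p D : Set ℕ) ∧ x.1 + x.2 = n} =
        (((AF p D ×ˢ AF p D).filter fun x => x.1 + x.2 = n : Finset (ℕ × ℕ)) : Set (ℕ × ℕ)) := by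
      ext x
      simp [and_assoc]
    unfold rep
    rw [h1, Set.ncard_coe_finset]
    refine lt_of_le_of_lt (AF_pairs hp D n) ?_
    exact Nat.pow_lt_pow_right (by norm_num) (by omega)
  · have h1 : (AF p D : Set ℕ) ∩ Set.Iio ((8 * p ^ 2) ^ D) = AF p D := by
      rw [Set.inter_eq_left]
      intro x hx
      exact AF_lt hp0 (mem_coe.1 hx)
    rw [h1, Set.ncard_coe_finset, AF_card hp0]
  · rcases eq_or_lt_of_le hL with h | h
    · have h1 : {s : ℕ | s + L ≤ (8 * p ^ 2) ^ D} = {0} := by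
        ext s
        simp only [Set.mem_ofPred_eq, Set.mem_singleton_iff]
        omega
      unfold blocks
      rw [h1, Set.image_singleton, Set.ncard_singleton]
      exact Nat.succ_le_of_lt (by positivity)
    · have hM1 : 1 < 8 * p ^ 2 := by nlinarith
      set i := Nat.log (8 * p ^ 2) L with hi
      have h1 : (8 * p ^ 2) ^ i ≤ L := Nat.pow_log_le_self _ (by omega)
      have h2 : L < (8 * p ^ 2) ^ (i + 1) := Nat.lt_pow_succ_log_self hM1 _
      have hiD : i < D := by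
        by_contra hcon
        have h3 : (8 * p ^ 2) ^ D ≤ (8 * p ^ 2) ^ i := Nat.pow_le_pow_right hM (by omega)
        omega
      have h3 : ((fun s : ℕ => {k : Fin L | s + (k : ℕ) ∈ (AF p D : Set ℕ)}) ''
          {s | s + L ≤ (8 * p ^ 2) ^ D}) ⊆ ((insert ∅ ((SS p ×ˢ range ((8 * p ^ 2) ^ i + L)).image
            fun x => GG p i L ((8 * p ^ 2) ^ i * x.1 + x.2)) : Finset (Set (Fin L))) :
              Set (Set (Fin L))) := by
        rintro _ ⟨s, hs, rfl⟩
        rw [mem_coe, mem_insert]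
        rcases Set.eq_empty_or_nonempty {k : Fin L | s + (k : ℕ) ∈ (AF p D : Set ℕ)} with h4 | ⟨k₀, h4⟩
        · exact Or.inl h4
        · right
          obtain ⟨e, he, j, hj, h5⟩ := block_eq hp0 hiD h2 k₀.2 (mem_coe.1 h4)
          rw [mem_image]
          exact ⟨(e, j), mem_product.2 ⟨he, mem_range.2 hj⟩, h5.symm⟩
      unfold blocks
      refine (Set.ncard_le_ncard h3 (finite_toSet _)).trans ?_
      rw [Set.ncard_coe_finset]
      refine (card_insert_le _ _).trans ?_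
      refine (Nat.succ_le_succ card_image_le).trans ?_
      rw [card_product, SS_card, card_range]
      have h4 : p * ((8 * p ^ 2) ^ i + L) ≤ p * (L + L) := Nat.mul_le_mul_left _ (by omega)
      have h5 : 1 * 1 ≤ p * L := Nat.mul_le_mul hp0 hL1
      have h6 : p * (L + L) = 2 * (p * L) := by ring
      have h7 : 3 * p * L = 3 * (p * L) := by ring
      omega

end Pool.Agent.P8H87.SC
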