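import Pool.Agent.P8H23.SC.Defs2

set_option autoImplicit false

/-!
# Package SHARP2: product sets of Erdős–Turán Sidon sets, Lempel–Ziv parses
-/

namespace Pool.Agent.P8H87.SC2

open Finset Pool.Agent.P8H23.SC

/-- the digits -/
def SS (p : ℕ) : Finset ℕ := (range p).image fun k => 2 * p * k + k ^ 2 % p

lemma dm {q a a' r r' : ℕ} (hr : r < q) (hr' : r' < q) (h : q * a + r = q * a' + r') :
    a = a' ∧ r = r' := by
  have hq : 0 < q := by omega
  have h1 := congrArg (fun x => x / q) h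
  simp only [Nat.mul_add_div hq, Nat.div_eq_of_lt hr, Nat.div_eq_of_lt hr', add_zero] at h1
  subst h1
  exact ⟨rfl, by omega⟩

lemma SS_lt {p s : ℕ} (hs : s ∈ SS p) : 2 * s < 4 * p ^ 2 := by
  unfold SS at hs
  rw [mem_image] at hs
  obtain ⟨k, hk, rfl⟩ := hs
  rw [mem_range] at hk
  have h1 : k ^ 2 % p < p := Nat.mod_lt _ (by omega)
  have h2 : 2 * p * (k + 1) ≤ 2 * p * p := Nat.mul_le_mul_left _ (by omega)
  nlinarith

lemma SS_card (p : ℕ) : (SS p).card = p := by
  unfold SS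
  rw [card_image_of_injOn, card_range]
  intro k hk l hl h
  rw [mem_coe, mem_range] at hk hl
  have h1 : k ^ 2 % p < p := Nat.mod_lt _ (by omega)
  have h2 : l ^ 2 % p < p := Nat.mod_lt _ (by omega)
  have h3 : 2 * p * k + k ^ 2 % p = 2 * p * l + l ^ 2 % p := h
  exact (dm (q := 2 * p) (by omega) (by omega) h3).1

lemma sidon {p k l k' l' : ℕ} (hp : p.Prime) (hk : k < p) (hl : l < p) (hk' : k' < p)
    (hl' : l' < p) (h : (2 * p * k + k ^ 2 % p) + (2 * p * l + l ^ 2 % p) =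
      (2 * p * k' + k' ^ 2 % p) + (2 * p * l' + l' ^ 2 % p)) :
    (k = k' ∧ l = l') ∨ (k = l' ∧ l = k') := by
  have hp0 := hp.pos
  have h1 : k ^ 2 % p < p := Nat.mod_lt _ hp0
  have h2 : l ^ 2 % p < p := Nat.mod_lt _ hp0
  have h3 : k' ^ 2 % p < p := Nat.mod_lt _ hp0
  have h4 : l' ^ 2 % p < p := Nat.mod_lt _ hp0
  obtain ⟨h5, h6⟩ := dm (q := 2 * p) (a := k + l) (a' := k' + l') (r := k ^ 2 % p + l ^ 2 % p)
    (r' := k' ^ 2 % p + l' ^ 2 % p) (by omega) (by omega) (by nlinarith)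
  have key : k = k' ∨ k = l' := by
    rcases eq_or_ne p 2 with rfl | hp2
    · omega
    · have e1 := Nat.div_add_mod (k ^ 2) p
      have e2 := Nat.div_add_mod (l ^ 2) p
      have e3 := Nat.div_add_mod (k' ^ 2) p
      have e4 := Nat.div_add_mod (l' ^ 2) p
      have h7 : (p : ℤ) ∣ 2 * ((k - k') * (k - l')) := by
        refine ⟨(k ^ 2 / p : ℕ) + (l ^ 2 / p : ℕ) - (k' ^ 2 / p : ℕ) - (l' ^ 2 / p : ℕ), ?_⟩
        zify at e1 e2 e3 e4 h5 h6
        have e5 : (l' : ℤ) = k + l - k' := by linarith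
        have e6 : (k : ℤ) ^ 2 + l ^ 2 - k' ^ 2 - l' ^ 2 = 2 * ((k - k') * (k - l')) := by
          rw [e5]
          ring
        rw [← e6]
        push_cast
        linear_combination -e1 - e2 + e3 + e4 + h6
      have hpi : Prime (p : ℤ) := Nat.prime_iff_prime_int.1 hp
      rcases hpi.dvd_or_dvd h7 with h8 | h8
      · exfalso
        have h9 : p ∣ 2 := by exact_mod_cast h8
        exact hp2 ((Nat.prime_dvd_prime_iff_eq hp Nat.prime_two).1 h9)
      · have red : ∀ a b : ℕ, a < p → b < p → (p : ℤ) ∣ (a : ℤ) - b → a = b := by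
          intro a b ha hb hab
          have h9 := Int.eq_zero_of_abs_lt_dvd hab (by rw [abs_lt]; constructor <;> omega)
          omega
        rcases hpi.dvd_or_dvd h8 with h9 | h9
        · exact Or.inl (red _ _ hk hk' h9)
        · exact Or.inr (red _ _ hk hl' h9)
  rcases key with h7 | h7
  · left
    exact ⟨h7, by omega⟩
  · right
    exact ⟨h7, by omega⟩

lemma pairs_le {p : ℕ} (hp : p.Prime) (m : ℕ) :
    ((SS p ×ˢ SS p).filter fun x => x.1 + x.2 = m).card ≤ 2 := by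
  rcases ((SS p ×ˢ SS p).filter fun x => x.1 + x.2 = m).eq_empty_or_nonempty with h | ⟨x₀, h₀⟩
  · rw [h, card_empty]
    omega
  · have h1 : ((SS p ×ˢ SS p).filter fun x => x.1 + x.2 = m) ⊆ {x₀, (x₀.2, x₀.1)} := by
      intro x hx
      rw [mem_filter, mem_product] at hx h₀
      obtain ⟨⟨hx1, hx2⟩, hx3⟩ := hx
      obtain ⟨⟨hy1, hy2⟩, hy3⟩ := h₀
      unfold SS at hx1 hx2 hy1 hy2
      rw [mem_image] at hx1 hx2 hy1 hy2
      obtain ⟨k, hk, e1⟩ := hx1
      obtain ⟨l, hl, e2⟩ := hx2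
      obtain ⟨k', hk', e3⟩ := hy1
      obtain ⟨l', hl', e4⟩ := hy2
      rw [mem_range] at hk hl hk' hl'
      have h2 := sidon hp hk hl hk' hl' (by rw [e1, e2, e3, e4, hx3, hy3])
      rw [mem_insert, mem_singleton]
      rcases h2 with ⟨h3, h4⟩ | ⟨h3, h4⟩
      · left
        subst h3 h4
        exact Prod.ext (e1.symm.trans e3) (e2.symm.trans e4)
      · right
        subst h3 h4
        exact Prod.ext (e1.symm.trans e4) (e2.symm.trans e3)
    exact (card_le_card h1).trans card_le_two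

/-- the numbers with `j` digits in `S` -/
def AF (p : ℕ) : ℕ → Finset ℕ
  | 0 => {0}
  | j + 1 => (SS p ×ˢ AF p j).image fun x => x.1 + 4 * p ^ 2 * x.2

variable {p : ℕ}

lemma mem_zero {x : ℕ} : x ∈ AF p 0 ↔ x = 0 := by
  unfold AF
  rw [mem_singleton]

lemma mem_succ (hp : 0 < p) {j x : ℕ} :
    x ∈ AF p (j + 1) ↔ x % (4 * p ^ 2) ∈ SS p ∧ x / (4 * p ^ 2) ∈ AF p j := by
  have hM : 0 < 4 * p ^ 2 := by positivity
  conv_lhs => unfold AF
  rw [mem_image]
  constructor
  · rintro ⟨⟨s, u⟩, h, rfl⟩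
    rw [mem_product] at h
    have h1 := SS_lt h.1
    have h2 : (s + 4 * p ^ 2 * u) % (4 * p ^ 2) = s := by
      rw [Nat.add_mul_mod_self_left, Nat.mod_eq_of_lt (by omega)]
    have h3 : (s + 4 * p ^ 2 * u) / (4 * p ^ 2) = u := by
      rw [Nat.add_mul_div_left _ _ hM, Nat.div_eq_of_lt (by omega), zero_add]
    simp only
    rw [h2, h3]
    exact h
  · rintro ⟨h1, h2⟩
    exact ⟨(x % (4 * p ^ 2), x / (4 * p ^ 2)), mem_product.2 ⟨h1, h2⟩, Nat.mod_add_div _ _⟩

lemma AF_lt (hp : 0 < p) {j x : ℕ} (hx : x ∈ AF p j) : x < (4 * p ^ 2) ^ j := by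
  have hM : 0 < 4 * p ^ 2 := by positivity
  induction j generalizing x with
  | zero =>
    rw [mem_zero] at hx
    subst hx
    simp
  | succ j ih =>
    rw [mem_succ hp] at hx
    have h1 := ih hx.2
    rw [Nat.div_lt_iff_lt_mul hM] at h1
    rwa [pow_succ]

lemma AF_card (hp : 0 < p) (j : ℕ) : (AF p j).card = p ^ j := by
  induction j with
  | zero => rfl
  | succ j ih =>
    unfold AF
    rw [card_image_of_injOn, card_product, SS_card, ih, pow_succ, mul_comm]
    rintro ⟨s, u⟩ h ⟨s', u'⟩ h' e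
    rw [mem_coe, mem_product] at h h'
    have h1 := SS_lt h.1
    have h2 := SS_lt h'.1
    simp only at e h1 h2
    obtain ⟨e1, e2⟩ := dm (q := 4 * p ^ 2) (a := u) (a' := u') (r := s) (r' := s') (by omega)
      (by omega) (by omega)
    rw [e1, e2]

lemma AF_split (hp : 0 < p) (i k : ℕ) : ∀ x, x ∈ AF p (i + k) ↔
    x % (4 * p ^ 2) ^ i ∈ AF p i ∧ x / (4 * p ^ 2) ^ i ∈ AF p k := by
  induction i with
  | zero =>
    intro x
    rw [zero_add, pow_zero, Nat.mod_one, Nat.div_one, mem_zero]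
    simp
  | succ i ih =>
    intro x
    rw [show i + 1 + k = (i + k) + 1 by ring, mem_succ hp, mem_succ hp, ih,
      pow_succ' (4 * p ^ 2) i, Nat.mod_mul_right_mod, Nat.mod_mul_right_div_self, Nat.div_div_eq_div_mul, and_assoc]

lemma AF_pairs (hp : p.Prime) (j : ℕ) : ∀ n,
    ((AF p j ×ˢ AF p j).filter fun x => x.1 + x.2 = n).card ≤ 2 ^ j := by
  have hM : 0 < 4 * p ^ 2 := by have := hp.pos; positivity
  induction j with
  | zero =>
    intro n
    refine (card_filter_le _ _).trans ?_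
    unfold AF
    simp
  | succ j ih =>
    intro n
    have h1 : ((AF p (j + 1) ×ˢ AF p (j + 1)).filter fun x => x.1 + x.2 = n).card ≤
        (((SS p ×ˢ SS p).filter fun x => x.1 + x.2 = n % (4 * p ^ 2)) ×ˢ
          ((AF p j ×ˢ AF p j).filter fun x => x.1 + x.2 = n / (4 * p ^ 2))).card := by
      refine card_le_card_of_injOn (fun x => ((x.1 % (4 * p ^ 2), x.2 % (4 * p ^ 2)),
        (x.1 / (4 * p ^ 2), x.2 / (4 * p ^ 2)))) ?_ ?_
      · rintro ⟨a, b⟩ hx
        rw [mem_coe, mem_filter, mem_product, mem_succ hp.pos, mem_succ hp.pos] at hx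
        obtain ⟨⟨⟨h1, h2⟩, ⟨h3, h4⟩⟩, h5⟩ := hx
        simp only at h1 h2 h3 h4 h5
        have l1 := SS_lt h1
        have l3 := SS_lt h3
        have d1 := Nat.mod_add_div a (4 * p ^ 2)
        have d2 := Nat.mod_add_div b (4 * p ^ 2)
        have d3 := Nat.mod_add_div n (4 * p ^ 2)
        obtain ⟨e1, e2⟩ := dm (q := 4 * p ^ 2) (a := a / (4 * p ^ 2) + b / (4 * p ^ 2))
          (a' := n / (4 * p ^ 2)) (r := a % (4 * p ^ 2) + b % (4 * p ^ 2))
          (r' := n % (4 * p ^ 2)) (by omega) (Nat.mod_lt _ hM) (by rw [mul_add]; omega)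
        rw [mem_coe, mem_product, mem_filter, mem_filter, mem_product, mem_product]
        exact ⟨⟨⟨h1, h3⟩, e2⟩, ⟨⟨h2, h4⟩, e1⟩⟩
      · rintro ⟨a, b⟩ - ⟨a', b'⟩ - e
        simp only [Prod.mk.injEq] at e
        have d1 := Nat.mod_add_div a (4 * p ^ 2)
        have d2 := Nat.mod_add_div b (4 * p ^ 2)
        have d3 := Nat.mod_add_div a' (4 * p ^ 2)
        have d4 := Nat.mod_add_div b' (4 * p ^ 2)
        rw [e.1.1, e.2.1] at d1
        rw [e.1.2, e.2.2] at d2
        rw [← d1, d3, ← d2, d4]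
    refine h1.trans ?_
    rw [card_product, pow_succ' 2 j]
    exact Nat.mul_le_mul (pairs_le hp _) (ih _)

lemma zero_mem (hp : 0 < p) : 0 ∈ SS p := by
  unfold SS
  rw [mem_image]
  exact ⟨0, mem_range.2 hp, by simp⟩

lemma parses_congr {A B : Set ℕ} {z N : ℕ} (h : Parses A z N) :
    (∀ x < N, (x ∈ A ↔ x ∈ B)) → Parses B z N := by
  induction h with
  | nil => exact fun _ => Parses.nil
  | letter _ ih => exact fun h => Parses.letter (ih fun x hx => h x (by omega))
  | @copy z N q l _ hq hc ih =>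
    intro h
    refine Parses.copy q l (ih fun x hx => h x (by omega)) hq fun j hj => ?_
    rw [← h _ (by omega), ← h _ (by omega)]
    exact hc j hj

/-- a run of zeros -/
lemma parses_zeros {A : Set ℕ} {z N N' : ℕ} (h : Parses A z N) (hN : N ≤ N')
    (h0 : ∀ x, N ≤ x → x < N' → x ∉ A) : ∃ z' ≤ z + 2, Parses A z' N' := by
  rcases eq_or_lt_of_le hN with rfl | hlt
  · exact ⟨z, by omega, h⟩
  · refine ⟨z + 2, le_rfl, ?_⟩
    have h1 := Parses.copy N (N' - (N + 1)) (Parses.letter h) (by omega) (fun j hj => by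
      constructor
      · intro h2
        exact absurd h2 (h0 _ (by omega) (by omega))
      · intro h2
        exact absurd h2 (h0 _ (by omega) (by omega)))
    rwa [show N + 1 + (N' - (N + 1)) = N' by omega] at h1

lemma mem_one (hp : 0 < p) {x : ℕ} (hx : x < 4 * p ^ 2) : x ∈ AF p 1 ↔ x ∈ SS p := by
  rw [mem_succ hp, mem_zero, Nat.mod_eq_of_lt hx, Nat.div_eq_of_lt hx]
  simp

lemma mem_top (hp : 0 < p) {j c y : ℕ} (hc : c < 4 * p ^ 2) (hy : y < (4 * p ^ 2) ^ j) :
    c * (4 * p ^ 2) ^ j + y ∈ AF p (j + 1) ↔ y ∈ AF p j ∧ c ∈ SS p := by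
  have hM : 0 < (4 * p ^ 2) ^ j := by positivity
  rw [AF_split hp j 1, mul_comm c, Nat.mul_add_mod, Nat.mod_eq_of_lt hy, Nat.mul_add_div hM,
    Nat.div_eq_of_lt hy, add_zero, mem_one hp hc]

lemma parse_step (hp : 0 < p) {j z₀ : ℕ}
    (h : Parses (AF p j : Set ℕ) z₀ ((4 * p ^ 2) ^ j)) :
    ∃ z ≤ z₀ + 3 * p, Parses (AF p (j + 1) : Set ℕ) z ((4 * p ^ 2) ^ (j + 1)) := by
  have hM : 0 < 4 * p ^ 2 := by positivity
  set W := (4 * p ^ 2) ^ j with hW
  have hW0 : 0 < W := by positivity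
  have h1 : Parses (AF p (j + 1) : Set ℕ) z₀ W := by
    refine parses_congr h fun x hx => ?_
    have h2 := mem_top hp (j := j) hM hx
    rw [zero_mul, zero_add] at h2
    rw [mem_coe, mem_coe, h2]
    exact ⟨fun h3 => ⟨h3, zero_mem hp⟩, fun h3 => h3.1⟩
  -- the elements of `[a W, c W)` are in blocks
  have hz : ∀ a c : ℕ, c ≤ 4 * p ^ 2 → (∀ x ∈ SS p, a ≤ x → ¬ x < c) → ∀ x, a * W ≤ x →
      x < c * W → x ∉ (AF p (j + 1) : Set ℕ) := by
    intro a c hc hS x hx1 hx2 hx3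
    have e := Nat.div_add_mod' x W
    have hm : x % W < W := Nat.mod_lt _ hW0
    have q1 : a ≤ x / W := (Nat.le_div_iff_mul_le hW0).2 hx1
    have q2 : x / W < c := (Nat.div_lt_iff_lt_mul hW0).2 hx2
    rw [mem_coe, ← e, mem_top hp (by omega) hm] at hx3
    exact hS _ hx3.2 q1 q2
  have key : ∀ c : ℕ, 1 ≤ c → c ≤ 4 * p ^ 2 → ∃ a z : ℕ, 1 ≤ a ∧ a ≤ c ∧
      z ≤ z₀ + 3 * ((SS p).filter fun x => 1 ≤ x ∧ x < a).card ∧
      Parses (AF p (j + 1) : Set ℕ) z (a * W) ∧ ∀ x ∈ SS p, a ≤ x → ¬ x < c := by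
    intro c hc
    induction c, hc using Nat.le_induction with
    | base =>
      intro _
      exact ⟨1, z₀, le_rfl, le_rfl, by omega, by rwa [one_mul], fun x _ h2 h3 => by omega⟩
    | succ c hc ih =>
      intro hcM
      obtain ⟨a, z, ha1, hac, hzb, hP, hS⟩ := ih (by omega)
      by_cases hcS : c ∈ SS p
      · obtain ⟨z', hz', hP'⟩ := parses_zeros hP (Nat.mul_le_mul_right W hac)
          (hz a c (by omega) hS)
        refine ⟨c + 1, z' + 1, by omega, le_rfl, ?_, ?_, fun x _ h2 h3 => by omega⟩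
        · have h2 : ((SS p).filter fun x => 1 ≤ x ∧ x < a).card <
              ((SS p).filter fun x => 1 ≤ x ∧ x < c + 1).card := by
            refine card_lt_card ⟨fun x hx => ?_, fun hsub => ?_⟩
            · rw [mem_filter] at hx ⊢
              exact ⟨hx.1, hx.2.1, by omega⟩
            · have h3 := hsub (mem_filter.2 ⟨hcS, hc, by omega⟩ : c ∈ _)
              rw [mem_filter] at h3
              omega
          omega
        · have h2 := Parses.copy 0 W hP' (by positivity) (fun y hy => by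
            have h3 := mem_top hp (j := j) (c := 0) hM hy
            have h4 := mem_top hp (j := j) (c := c) (by omega) hy
            rw [zero_mul] at h3
            rw [mem_coe, mem_coe, h3, h4]
            exact ⟨fun h5 => ⟨h5.1, hcS⟩, fun h5 => ⟨h5.1, zero_mem hp⟩⟩)
          rwa [show c * W + W = (c + 1) * W by ring] at h2
      · refine ⟨a, z, ha1, by omega, hzb, hP, fun x hx h2 h3 => ?_⟩
        rcases eq_or_lt_of_le (Nat.lt_succ_iff.1 h3) with h4 | h4
        · exact hcS (h4 ▸ hx)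
        · exact hS x hx h2 h4
  obtain ⟨a, z, -, hac, hzb, hP, hS⟩ := key (4 * p ^ 2) hM le_rfl
  obtain ⟨z', hz', hP'⟩ := parses_zeros hP (Nat.mul_le_mul_right W hac) (hz a _ le_rfl hS)
  refine ⟨z', ?_, by rwa [pow_succ, mul_comm]⟩
  have h2 : ((SS p).filter fun x => 1 ≤ x ∧ x < a).card < (SS p).card := by
    refine card_lt_card ⟨filter_subset _ _, fun hsub => ?_⟩
    have h3 := hsub (zero_mem hp)
    rw [mem_filter] at h3
    omega
  rw [SS_card] at h2
  omega

lemma parse (hp : 0 < p) (j : ℕ) :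
    ∃ z ≤ 3 * p * j + 1, Parses (AF p j : Set ℕ) z ((4 * p ^ 2) ^ j) := by
  induction j with
  | zero => exact ⟨1, by omega, Parses.letter Parses.nil⟩
  | succ j ih =>
    obtain ⟨z₀, h1, h2⟩ := ih
    obtain ⟨z, h3, h4⟩ := parse_step hp h2
    exact ⟨z, by rw [mul_add]; omega, h4⟩

/-- the package SHARP2 -/
theorem sharp2 : S_SHARP2 := by
  classical
  intro D p hp
  have hp0 := hp.pos
  refine ⟨(AF p D : Set ℕ), fun n => ?_, ?_, parse hp0 D⟩
  · have h1 : {x : ℕ × ℕ | x.1 ∈ (AF p D : Set ℕ) ∧ x.2 ∈ (AF p D : Set ℕ) ∧ x.1 + x.2 = n} =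
        (((AF p D ×ˢ AF p D).filter fun x => x.1 + x.2 = n : Finset (ℕ × ℕ)) : Set (ℕ × ℕ)) := by
      ext x
      simp [and_assoc]
    unfold rep
    rw [h1, Set.ncard_coe_finset]
    refine lt_of_le_of_lt (AF_pairs hp D n) ?_
    exact Nat.pow_lt_pow_right (by norm_num) (by omega)
  · have h1 : (AF p D : Set ℕ) ∩ Set.Iio ((4 * p ^ 2) ^ D) = AF p D := by
      rw [Set.inter_eq_left]
      intro x hx
      exact AF_lt hp0 (mem_coe.1 hx)
    rw [h1, Set.ncard_coe_finset, AF_card hp0]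

end Pool.Agent.P8H87.SC2
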